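import Pool.Agent.Lib.MP_6245c4_gt.FA.Sum

/-! It is consistent with ZFC that `max {b, g} < add (Menger)`, and the gap can be very large:
`b, g ≤ ℵ₁` while `add (Menger)` is above an uncountable fixed point of the aleph function. -/

namespace Pool.Agent.Results.MP_6245c4_gt.FarAbove

open Pool.Agent.Lib.MP_2739cb_lc Pool.Agent.Shared.RealForcing Pool.Agent.Lib.MP_6245c4_gt
open Pool.Agent.Lib.MP_6245c4_gt.FA Cardinal Ordinal

theorem result : ∃ (M : Type 1) (E : M → M → Prop), IsZFC E ∧ ∃ w b g l C : M,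
    IsOmega E w ∧ IsMinCard E (Unbounded E w) b ∧ IsMinCard E (GFamily E w) g ∧
    (∀ α, E α b ∨ E α g → CardLe E α w) ∧
    IsCard E l ∧ E w l ∧ E b l ∧ E g l ∧ (∀ c, E c C → IsCard E c ∧ E c l) ∧ CardLe E l C ∧
    (∀ S τ A, IsTopology E S τ → SecondCountable E w τ → BadFamily E w S τ A →
      ¬ CardLe E A b ∧ ¬ CardLe E A g ∧ ¬ CardLe E A l) ∧
    ∃ S τ a, (∀ x, E x S ↔ Sub E x w) ∧ (∀ O, E O τ ↔ OpenSet E w O) ∧
      IsMinCard E (BadFamily E w S τ) a ∧ E b a ∧ E g a ∧ E l a := by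
  let o : Ordinal.{0} := nfp omega 2
  have ho : (ℵ_ o).ord = o := (ord_aleph o).trans (nfp_fp isNormal_omega 2)
  have ho1 : (ℵ₁ : Cardinal.{0}) < ℵ_ o := aleph_lt_aleph.2 (one_lt_two.trans_le (le_nfp _ _))
  let W := (ℵ₁ : Cardinal.{0}).ord.ToType
  have hW : #W = ℵ₁ := mk_ord_toType _
  have : Reg W := reg_toType isRegular_aleph_one aleph0_lt_aleph_one
  let J := (Order.succ (ℵ_ o)).ord.ToType
  have hJ : #J = Order.succ (ℵ_ o) := mk_ord_toType _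
  have hoJ : ℵ_ o ≤ #J := (Order.le_succ _).trans hJ.ge
  have : Reg J := reg_toType (isRegular_succ (aleph0_le_aleph o))
    ((aleph0_le_aleph o).trans_lt (Order.lt_succ _))
  have hΛ : #J < #(Set J) := by rw [mk_set]; exact cantor _
  obtain ⟨B, h1, h2⟩ := exists_scale (W := W) hΛ (hW.le.trans (ho1.le.trans hoJ))
  have hB : InC B B.k := ⟨le_rfl, h1, h2⟩
  obtain ⟨U⟩ : Nonempty (GU ((apx B hB).rand W).Cd) := inferInstance
  have hb0 := FA.unbounded (s := apx B hB) B.ms (fun k => k.2.2.2) U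
  have hg0 := FA.gFamily U
  rw [hW] at hb0 hg0
  obtain ⟨b, hb⟩ := exists_isMinCard (fun U F => Unbounded (El U) (cl U om) F) hb0
  obtain ⟨g, hg⟩ := exists_isMinCard (fun U F => GFamily (El U) (cl U om) F) hg0
  have hb1 : Sub (El U) b (cl U (oN (ℵ₁ : Cardinal.{0}).ord)) :=
    let ⟨_, h4, h5⟩ := hb0; hb.sub MU_zfc (isOrd_cl_on _) h4 h5
  have hg1 : Sub (El U) g (cl U (oN (ℵ₁ : Cardinal.{0}).ord)) :=
    let ⟨_, h4, h5⟩ := hg0; hg.sub MU_zfc (isOrd_cl_on _) h4 h5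
  have h3 : (ℵ₁ : Cardinal.{0}).ord < o := ho ▸ ord_lt_ord.2 ho1
  have h4 : o ≤ (#J).ord := ho ▸ ord_le_ord.2 hoJ
  have key : ∀ S τ A, IsTopology (El U) S τ → SecondCountable (El U) (cl U om) τ →
      BadFamily (El U) (cl U om) S τ A → ¬ CardLe (El U) A (cl U (oN o)) :=
    fun S τ A h1 h2 ⟨h3, X, h5, h6⟩ h7 => h6 (FA.menger_union (hasTop_apx hΛ B hB) U S τ A X
      h1 h2 h3 h5 (cardLe_mono h7 (sub_on h4)))
  have lt_l : ∀ x, IsOrd (El U) x → Sub (El U) x (cl U (oN (ℵ₁ : Cardinal.{0}).ord)) →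
      El U x (cl U (oN o)) := fun x hx h => (MU_zfc.ord_total (isOrd_cl_on o) hx).resolve_left
    fun h' => lt_irrefl _ (el_on.1 (h _ (h' _ (el_on.2 h3))))
  have hl := isCard_oN (bdd_inC B hB) hoJ (aleph0_lt_aleph_one.trans ho1) U
  rw [ho] at hl
  obtain ⟨S, τ, hS⟩ := exists_cantor (P := ((apx B hB).rand W).Cd)
  obtain ⟨A, hA⟩ := exists_badFamily S τ (fun U => (hS U).1) (fun U => (hS U).2.1)
    (fun U => (hS U).2.2.1) U
  obtain ⟨a, ha⟩ := exists_isMinCard (fun U F => BadFamily (El U) (cl U om) (cl U S) (cl U τ) F)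
    ⟨_, hA, exists_cardLe_on A⟩
  have hla : El U (cl U (oN o)) a := (MU_zfc.ord_total ha.1 (isOrd_cl_on o)).resolve_left fun h =>
    let ⟨F, h5, h6⟩ := ha.2.1; key _ _ F (hS U).2.2.1 (hS U).2.2.2 h5 (cardLe_mono h6 h)
  refine ⟨_, El U, MU_zfc, _, b, g, cl U (oN o), _, isOmega_om, hb, hg,
    fun α h => countable_below (h.elim (hb1 α) (hg1 α)),
    hl,
    el_on.2 ((ord_aleph0 ▸ ord_lt_ord.2 aleph0_lt_aleph_one).trans h3), lt_l b hb.1 hb1,
    lt_l g hg.1 hg1, fun c hc => ?_, cardLe_alephs o, fun S τ A h1 h2 h5 => ⟨fun h => ?_,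
    fun h => ?_, key S τ A h1 h2 h5⟩, _, _, a, (hS U).1, (hS U).2.1, ha,
    ha.1.1 _ hla _ (lt_l b hb.1 hb1), ha.1.1 _ hla _ (lt_l g hg.1 hg1), hla⟩
  · obtain ⟨c, rfl⟩ := cl_surj c
    refine wlog_set c _ _ U hc fun U i _ e => ?_
    have h5 : ℵ_ (typein (α := o.ToType) (· < ·) i + 1) < ℵ_ o := aleph_lt_aleph.2
      ((ho ▸ isSuccLimit_ord (aleph0_le_aleph o)).succ_lt (typein_lt_self i))
    rw [e]
    exact ⟨isCard_oN (bdd_inC B hB) (h5.le.trans hoJ) (aleph0_lt_aleph_one.trans_le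
      (aleph_le_aleph.2 le_add_self)) U, el_on.2 ((ord_lt_ord.2 h5).trans_eq ho)⟩
  · exact key S τ A h1 h2 h5 (cardLe_mono h fun z hz => sub_on h3.le z (hb1 z hz))
  · exact key S τ A h1 h2 h5 (cardLe_mono h fun z hz => sub_on h3.le z (hg1 z hz))

end Pool.Agent.Results.MP_6245c4_gt.FarAbove
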